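import Mathlib

/-!
Auxiliary results for the lower bound `2 n` for probing convex `n`-gons by chord lengths.
-/

set_option autoImplicit false

namespace Pool.Agent.Helper877.Probe

/-- sign constancy on a smaller open set -/
theorem sign_const {E ι : Type*} [TopologicalSpace E] [Finite ι] (f : ι → E → ℝ) (V : Set E)
    (hV : IsOpen V) (hne : V.Nonempty) (hf : ∀ i, ContinuousOn (f i) V) :
    ∃ W ⊆ V, IsOpen W ∧ W.Nonempty ∧
      ∀ i, (∀ x ∈ W, 0 < f i x) ∨ (∀ x ∈ W, f i x = 0) ∨ (∀ x ∈ W, f i x < 0) := by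
  classical
  haveI := Fintype.ofFinite ι
  have key : ∀ s : Finset ι, ∃ W ⊆ V, IsOpen W ∧ W.Nonempty ∧
      ∀ i ∈ s, (∀ x ∈ W, 0 < f i x) ∨ (∀ x ∈ W, f i x = 0) ∨ (∀ x ∈ W, f i x < 0) := by
    intro s
    induction s using Finset.induction_on with
    | empty => exact ⟨V, subset_rfl, hV, hne, by simp⟩
    | insert i s _ ih =>
      obtain ⟨W, hWV, hWo, hWn, hW⟩ := ih
      have hfW := (hf i).mono hWV
      by_cases h0 : ∀ x ∈ W, f i x = 0
      · refine ⟨W, hWV, hWo, hWn, fun j hj => ?_⟩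
        rcases Finset.mem_insert.1 hj with rfl | hj
        · exact Or.inr (Or.inl h0)
        · exact hW j hj
      · push Not at h0
        obtain ⟨x, hx, hx0⟩ := h0
        rcases lt_or_gt_of_ne hx0 with h | h
        · refine ⟨W ∩ f i ⁻¹' Set.Iio 0, Set.inter_subset_left.trans hWV,
            hfW.isOpen_inter_preimage hWo isOpen_Iio, ⟨x, hx, h⟩, fun j hj => ?_⟩
          rcases Finset.mem_insert.1 hj with rfl | hj
          · exact Or.inr (Or.inr fun y hy => hy.2)
          · rcases hW j hj with h | h | h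
            · exact Or.inl fun y hy => h y hy.1
            · exact Or.inr (Or.inl fun y hy => h y hy.1)
            · exact Or.inr (Or.inr fun y hy => h y hy.1)
        · refine ⟨W ∩ f i ⁻¹' Set.Ioi 0, Set.inter_subset_left.trans hWV,
            hfW.isOpen_inter_preimage hWo isOpen_Ioi, ⟨x, hx, h⟩, fun j hj => ?_⟩
          rcases Finset.mem_insert.1 hj with rfl | hj
          · exact Or.inl fun y hy => hy.2
          · rcases hW j hj with h | h | h
            · exact Or.inl fun y hy => h y hy.1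
            · exact Or.inr (Or.inl fun y hy => h y hy.1)
            · exact Or.inr (Or.inr fun y hy => h y hy.1)
  obtain ⟨W, h1, h2, h3, h4⟩ := key Finset.univ
  exact ⟨W, h1, h2, h3, fun i => h4 i (Finset.mem_univ i)⟩

/-- constant index of the maximum on a smaller open set -/
theorem max_const {E ι : Type*} [TopologicalSpace E] (s : Finset ι) (hs : s.Nonempty)
    (g : ι → E → ℝ) (V : Set E) (hV : IsOpen V) (hne : V.Nonempty)
    (hg : ∀ i ∈ s, ContinuousOn (g i) V) :
    ∃ W ⊆ V, IsOpen W ∧ W.Nonempty ∧ ∃ k ∈ s, ∀ i ∈ s, ∀ x ∈ W, g i x ≤ g k x := by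
  classical
  induction hs using Finset.Nonempty.cons_induction with
  | singleton a =>
    refine ⟨V, subset_rfl, hV, hne, a, by simp, ?_⟩
    intro i hi x _
    rw [Finset.mem_singleton] at hi
    rw [hi]
  | cons a s ha hs ih =>
    obtain ⟨W, hWV, hWo, hWn, k, hk, hmax⟩ := ih (fun i hi => hg i (Finset.mem_cons_of_mem hi))
    by_cases hx : ∃ x ∈ W, g k x < g a x
    · have hc : ContinuousOn (fun x => g a x - g k x) W :=
        ((hg a (Finset.mem_cons_self a s)).mono hWV).sub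
          ((hg k (Finset.mem_cons_of_mem hk)).mono hWV)
      have ho := hc.isOpen_inter_preimage hWo (isOpen_Ioi (a := (0 : ℝ)))
      obtain ⟨x, hxW, hlt⟩ := hx
      refine ⟨_, (Set.inter_subset_left).trans hWV, ho, ⟨x, hxW, ?_⟩, a,
        Finset.mem_cons_self a s, ?_⟩
      · simp only [Set.mem_preimage, Set.mem_Ioi]
        linarith
      · intro i hi y hy
        have hy2 := hy.2
        simp only [Set.mem_preimage, Set.mem_Ioi] at hy2
        rcases Finset.mem_cons.1 hi with h | h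
        · rw [h]
        · have := hmax i h y hy.1
          linarith
    · push Not at hx
      refine ⟨W, hWV, hWo, hWn, k, Finset.mem_cons_of_mem hk, ?_⟩
      intro i hi y hy
      rcases Finset.mem_cons.1 hi with h | h
      · rw [h]
        exact hx y hy
      · exact hmax i h y hy

/-- section of a convex hull by a hyperplane -/
theorem section_hull_aux {ι F : Type*} [AddCommGroup F] [Module ℝ F] (P N : Finset ι) (l s : ι → ℝ)
    (hl : ∀ i ∈ P, 0 ≤ l i) (hlN : ∀ i ∈ N, 0 ≤ l i) (hP : ∀ i ∈ P, 0 < s i) (hN : ∀ i ∈ N, s i < 0)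
    (hM : ∑ i ∈ P, l i * s i = ∑ j ∈ N, l j * (-s j)) (g : ι → F) :
    ∑ p ∈ P ×ˢ N, (l p.1 * l p.2 / (∑ i ∈ P, l i * s i)) • (s p.1 • g p.2 - s p.2 • g p.1)
      = ∑ i ∈ P, l i • g i + ∑ j ∈ N, l j • g j := by
  classical
  by_cases h0 : ∑ i ∈ P, l i * s i = 0
  · have h1 : ∀ i ∈ P, l i = 0 := by
      intro i hi
      have := (Finset.sum_eq_zero_iff_of_nonneg (fun i hi => mul_nonneg (hl i hi) (hP i hi).le)).1 h0 i hi
      rcases mul_eq_zero.1 this with h | h
      · exact h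
      · exact absurd h (hP i hi).ne'
    have h2 : ∀ i ∈ N, l i = 0 := by
      intro i hi
      rw [h0] at hM
      have := (Finset.sum_eq_zero_iff_of_nonneg (fun i hi => mul_nonneg (hlN i hi)
        (neg_nonneg.2 (hN i hi).le))).1 hM.symm i hi
      rcases mul_eq_zero.1 this with h | h
      · exact h
      · exact absurd (neg_eq_zero.1 h) (hN i hi).ne
    rw [h0]
    simp only [div_zero, zero_smul, Finset.sum_const_zero]
    rw [Finset.sum_eq_zero (fun i hi => by rw [h1 i hi, zero_smul]),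
      Finset.sum_eq_zero (fun i hi => by rw [h2 i hi, zero_smul]), add_zero]
  · set M := ∑ i ∈ P, l i * s i with hMdef
    have e1 : ∀ p ∈ P ×ˢ N, (l p.1 * l p.2 / M) • (s p.1 • g p.2 - s p.2 • g p.1)
        = (l p.1 * s p.1 / M) • (l p.2 • g p.2) + (l p.2 * (-s p.2) / M) • (l p.1 • g p.1) := by
      intro p _
      rw [smul_sub, smul_smul, smul_smul, smul_smul, smul_smul, sub_eq_add_neg, ← neg_smul]
      congr 2 <;> ring
    rw [Finset.sum_congr rfl e1, Finset.sum_add_distrib, Finset.sum_product, Finset.sum_product_right]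
    simp only
    have e2 : ∑ x ∈ P, ∑ y ∈ N, (l x * s x / M) • l y • g y = ∑ j ∈ N, l j • g j := by
      have : ∀ x ∈ P, ∑ y ∈ N, (l x * s x / M) • l y • g y = (l x * s x / M) • ∑ y ∈ N, l y • g y := by
        intro x _
        rw [Finset.smul_sum]
      rw [Finset.sum_congr rfl this, ← Finset.sum_smul, ← Finset.sum_div, ← hMdef, div_self h0, one_smul]
    have e3 : ∑ y ∈ N, ∑ x ∈ P, (l y * -s y / M) • l x • g x = ∑ j ∈ P, l j • g j := by
      have : ∀ y ∈ N, ∑ x ∈ P, (l y * -s y / M) • l x • g x = (l y * -s y / M) • ∑ x ∈ P, l x • g x := by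
        intro x _
        rw [Finset.smul_sum]
      rw [Finset.sum_congr rfl this, ← Finset.sum_smul, ← Finset.sum_div, ← hM, div_self h0, one_smul]
    rw [e2, e3, add_comm]

theorem section_hull_split {ι F : Type*} [AddCommGroup F] (t : Finset ι) (s : ι → ℝ) (h : ι → F) :
    ∑ i ∈ t, h i = ∑ i ∈ t.filter (fun i => s i = 0), h i +
      (∑ i ∈ t.filter (fun i => 0 < s i), h i + ∑ i ∈ t.filter (fun i => s i < 0), h i) := by
  classical
  set P := t.filter (fun i => 0 < s i) with hPd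
  set N := t.filter (fun i => s i < 0) with hNd
  set Z := t.filter (fun i => s i = 0) with hZd
  have hd1 : Disjoint P N := by
    rw [Finset.disjoint_left]
    intro i hi hi'
    have h1 := (Finset.mem_filter.1 hi).2
    have h2 := (Finset.mem_filter.1 hi').2
    linarith
  have hd2 : Disjoint Z (P ∪ N) := by
    rw [Finset.disjoint_left]
    intro i hi hi'
    have h1 := (Finset.mem_filter.1 hi).2
    rcases Finset.mem_union.1 hi' with h2 | h2
    · have := (Finset.mem_filter.1 h2).2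
      linarith
    · have := (Finset.mem_filter.1 h2).2
      linarith
  rw [← Finset.sum_union hd1, ← Finset.sum_union hd2]
  refine Finset.sum_congr ?_ (fun _ _ => rfl)
  ext i
  simp only [hPd, hNd, hZd, Finset.mem_union, Finset.mem_filter]
  constructor
  · intro hi
    rcases lt_trichotomy (s i) 0 with h | h | h
    · exact Or.inr (Or.inr ⟨hi, h⟩)
    · exact Or.inl ⟨hi, h⟩
    · exact Or.inr (Or.inl ⟨hi, h⟩)
  · rintro (h | h | h)
    · exact h.1
    · exact h.1
    · exact h.1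

theorem section_hull {E ι : Type*} [AddCommGroup E] [Module ℝ E] [Fintype ι] (f : E →ₗ[ℝ] ℝ) (b : ℝ)
    (v : ι → E) (x : E) (hx : x ∈ convexHull ℝ (Set.range v)) (hb : f x = b) :
    x ∈ convexHull ℝ {y | (∃ i, f (v i) - b = 0 ∧ y = v i) ∨
      ∃ i j, 0 < f (v i) - b ∧ f (v j) - b < 0 ∧
        y = ((f (v i) - b) - (f (v j) - b))⁻¹ • ((f (v i) - b) • v j - (f (v j) - b) • v i)} := by
  classical
  rw [convexHull_range_eq_exists_affineCombination] at hx
  obtain ⟨t, l, hl, hsum, hxe⟩ := hx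
  rw [Finset.affineCombination_eq_linear_combination _ _ _ hsum] at hxe
  set s : ι → ℝ := fun i => f (v i) - b with hs
  set P := t.filter (fun i => 0 < s i) with hPd
  set N := t.filter (fun i => s i < 0) with hNd
  set Z := t.filter (fun i => s i = 0) with hZd
  have hls : ∑ i ∈ t, l i * s i = 0 := by
    have h1 : f x = ∑ i ∈ t, l i * f (v i) := by
      rw [← hxe, map_sum]
      simp [smul_eq_mul]
    have h2 : ∑ i ∈ t, l i * s i = ∑ i ∈ t, l i * f (v i) - (∑ i ∈ t, l i) * b := by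
      rw [Finset.sum_mul, ← Finset.sum_sub_distrib]
      refine Finset.sum_congr rfl (fun i _ => ?_)
      simp only [hs]
      ring
    rw [h2, hsum, ← h1, hb]
    ring
  have hM : ∑ i ∈ P, l i * s i = ∑ j ∈ N, l j * (-s j) := by
    have h1 := section_hull_split t s (fun i => l i * s i)
    rw [hls] at h1
    have h2 : ∑ i ∈ Z, l i * s i = 0 := by
      refine Finset.sum_eq_zero (fun i hi => ?_)
      rw [(Finset.mem_filter.1 hi).2, mul_zero]
    have h3 : ∑ j ∈ N, l j * (-s j) = - ∑ j ∈ N, l j * s j := by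
      rw [← Finset.sum_neg_distrib]
      exact Finset.sum_congr rfl (fun i _ => by ring)
    rw [h3]
    have h1' : (0:ℝ) = ∑ i ∈ Z, l i * s i + (∑ i ∈ P, l i * s i + ∑ i ∈ N, l i * s i) := h1
    linarith
  have hlP : ∀ i ∈ P, 0 ≤ l i := fun i hi => hl i (Finset.mem_filter.1 hi).1
  have hlN : ∀ i ∈ N, 0 ≤ l i := fun i hi => hl i (Finset.mem_filter.1 hi).1
  have hP : ∀ i ∈ P, 0 < s i := fun i hi => (Finset.mem_filter.1 hi).2
  have hN : ∀ i ∈ N, s i < 0 := fun i hi => (Finset.mem_filter.1 hi).2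
  set M := ∑ i ∈ P, l i * s i with hMd
  have hM0 : 0 ≤ M := Finset.sum_nonneg (fun i hi => mul_nonneg (hlP i hi) (hP i hi).le)
  have A1 := section_hull_aux P N l s hlP hlN hP hN hM v
  have A2 := section_hull_aux P N l s hlP hlN hP hN hM (fun _ => (1 : ℝ))
  simp only [← hMd] at A1 A2
  set w : ι ⊕ (ι × ι) → ℝ := Sum.elim l (fun p => l p.1 * l p.2 / M * (s p.1 - s p.2)) with hw
  set z : ι ⊕ (ι × ι) → E := Sum.elim v (fun p => (s p.1 - s p.2)⁻¹ • (s p.1 • v p.2 - s p.2 • v p.1)) with hz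
  have key := (convex_convexHull ℝ {y | (∃ i, f (v i) - b = 0 ∧ y = v i) ∨
      ∃ i j, 0 < f (v i) - b ∧ f (v j) - b < 0 ∧
        y = ((f (v i) - b) - (f (v j) - b))⁻¹ • ((f (v i) - b) • v j - (f (v j) - b) • v i)}).sum_mem
      (t := Z.disjSum (P ×ˢ N)) (w := w) (z := z) ?_ ?_ ?_
  · have e : ∑ i ∈ Z.disjSum (P ×ˢ N), w i • z i = x := by
      rw [Finset.sum_disjSum]
      have e1 : ∀ p ∈ P ×ˢ N, w (Sum.inr p) • z (Sum.inr p)
          = (l p.1 * l p.2 / M) • (s p.1 • v p.2 - s p.2 • v p.1) := by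
        intro p hp
        rw [Finset.mem_product] at hp
        have hne : s p.1 - s p.2 ≠ 0 := by
          have h1 := hP _ hp.1
          have h2 := hN _ hp.2
          exact ne_of_gt (by linarith)
        simp only [hw, hz, Sum.elim_inr]
        rw [smul_smul, mul_assoc, mul_inv_cancel₀ hne, mul_one]
      rw [Finset.sum_congr rfl e1, A1]
      simp only [hw, hz, Sum.elim_inl]
      rw [← hxe, section_hull_split t s (fun i => l i • v i)]
    rwa [e] at key
  · intro i hi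
    rcases i with i | p
    · simp only [hw, Sum.elim_inl]
      have : i ∈ Z := by simpa using hi
      exact hl i (Finset.mem_filter.1 this).1
    · simp only [hw, Sum.elim_inr]
      have hp : p.1 ∈ P ∧ p.2 ∈ N := by
        have := Finset.inr_mem_disjSum.1 hi
        exact Finset.mem_product.1 this
      have h1 := hP _ hp.1
      have h2 := hN _ hp.2
      exact mul_nonneg (div_nonneg (mul_nonneg (hlP _ hp.1) (hlN _ hp.2)) hM0) (by linarith)
  · rw [Finset.sum_disjSum]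
    simp only [hw, Sum.elim_inl, Sum.elim_inr]
    have : ∑ p ∈ P ×ˢ N, l p.1 * l p.2 / M * (s p.1 - s p.2) = ∑ i ∈ P, l i + ∑ j ∈ N, l j := by
      simpa [smul_eq_mul] using A2
    rw [this, ← section_hull_split t s l, hsum]
  · intro i hi
    apply subset_convexHull
    rcases i with i | p
    · left
      refine ⟨i, ?_, rfl⟩
      have : i ∈ Z := Finset.inl_mem_disjSum.1 hi
      exact (Finset.mem_filter.1 this).2
    · right
      have hp : p.1 ∈ P ∧ p.2 ∈ N := by
        have := Finset.inr_mem_disjSum.1 hi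
        exact Finset.mem_product.1 this
      exact ⟨p.1, p.2, hP _ hp.1, hN _ hp.2, rfl⟩

/-- removal of a coordinate -/
noncomputable def step_ift_P (k : ℕ) (i : Fin (k + 1)) :
    EuclideanSpace ℝ (Fin (k + 1)) →L[ℝ] EuclideanSpace ℝ (Fin k) :=
  LinearMap.toContinuousLinearMap
    { toFun := fun x => WithLp.toLp 2 (fun j => x (i.succAbove j))
      map_add' := by intro x y; ext j; simp
      map_smul' := by intro c x; ext j; simp }

theorem step_ift_P_apply (k : ℕ) (i : Fin (k + 1)) (x : EuclideanSpace ℝ (Fin (k + 1)))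
    (j : Fin k) : step_ift_P k i x j = x (i.succAbove j) := rfl

theorem step_ift_exists (k : ℕ) (L : EuclideanSpace ℝ (Fin (k + 1)) →L[ℝ] ℝ) (hL : L ≠ 0) :
    ∃ i, L (EuclideanSpace.single i 1) ≠ 0 := by
  by_contra hcon
  push Not at hcon
  apply hL
  have h1 : (L : EuclideanSpace ℝ (Fin (k + 1)) →ₗ[ℝ] ℝ) = 0 := by
    apply (EuclideanSpace.basisFun (Fin (k + 1)) ℝ).toBasis.ext
    intro i
    simp only [OrthonormalBasis.coe_toBasis, EuclideanSpace.basisFun_apply,
      ContinuousLinearMap.coe_coe, LinearMap.zero_apply]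
    exact hcon i
  ext x
  exact congrArg (fun f : EuclideanSpace ℝ (Fin (k + 1)) →ₗ[ℝ] ℝ => f x) h1

theorem step_ift_inj (k : ℕ) (L : EuclideanSpace ℝ (Fin (k + 1)) →L[ℝ] ℝ) (i : Fin (k + 1))
    (hi : L (EuclideanSpace.single i 1) ≠ 0) :
    Function.Injective ((step_ift_P k i).prod L) := by
  rw [injective_iff_map_eq_zero]
  intro h hh
  rw [ContinuousLinearMap.prod_apply, Prod.mk_eq_zero] at hh
  obtain ⟨h1, h2⟩ := hh
  have h3 : ∀ j, j ≠ i → h j = 0 := by
    intro j hj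
    obtain ⟨l, rfl⟩ := Fin.exists_succAbove_eq hj
    have := congrArg (fun f : EuclideanSpace ℝ (Fin k) => f l) h1
    simpa [step_ift_P_apply] using this
  have h4 : h = (h i) • EuclideanSpace.single i (1 : ℝ) := by
    ext j
    by_cases hj : j = i
    · subst hj; simp
    · rw [h3 j hj]; simp [hj]
  rw [h4, map_smul, smul_eq_mul, mul_eq_zero] at h2
  rcases h2 with h2 | h2
  · rw [h4, h2, zero_smul]
  · exact absurd h2 hi

/-- a `C¹` function on an open set of `ℝ^(k+1)` is constant on an open set or on the image of an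
injective `C¹` map from an open set of `ℝ^k` -/
theorem step_ift (k : ℕ) (V : Set (EuclideanSpace ℝ (Fin (k + 1)))) (hV : IsOpen V) (hne : V.Nonempty)
    (g : EuclideanSpace ℝ (Fin (k + 1)) → ℝ) (hg : ContDiffOn ℝ 1 g V) :
    (∃ W ⊆ V, IsOpen W ∧ W.Nonempty ∧ ∃ c : ℝ, ∀ x ∈ W, g x = c) ∨
    (∃ (W : Set (EuclideanSpace ℝ (Fin k))) (ψ : EuclideanSpace ℝ (Fin k) → EuclideanSpace ℝ (Fin (k + 1))),
      IsOpen W ∧ W.Nonempty ∧ ContDiffOn ℝ 1 ψ W ∧ Set.InjOn ψ W ∧ Set.MapsTo ψ W V ∧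
      ∃ c : ℝ, ∀ w ∈ W, g (ψ w) = c) := by
  by_cases hzero : ∀ v ∈ V, fderiv ℝ g v = 0
  · left
    obtain ⟨v0, hv0⟩ := hne
    obtain ⟨r, hr, hball⟩ := Metric.isOpen_iff.mp hV v0 hv0
    refine ⟨Metric.ball v0 r, hball, Metric.isOpen_ball, ⟨v0, Metric.mem_ball_self hr⟩, g v0, ?_⟩
    intro x hx
    have hd : DifferentiableOn ℝ g (Metric.ball v0 r) :=
      (hg.differentiableOn (by norm_num)).mono hball
    refine (convex_ball v0 r).is_const_of_fderivWithin_eq_zero hd ?_ hx (Metric.mem_ball_self hr)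
    intro y hy
    rw [fderivWithin_of_isOpen Metric.isOpen_ball hy]
    exact hzero y (hball hy)
  · right
    push Not at hzero
    obtain ⟨v0, hv0, hL⟩ := hzero
    obtain ⟨i, hi⟩ := step_ift_exists k _ hL
    have hgc : ContDiffAt ℝ 1 g v0 := hg.contDiffAt (hV.mem_nhds hv0)
    set P := step_ift_P k i with hP
    set Φ : EuclideanSpace ℝ (Fin (k + 1)) → EuclideanSpace ℝ (Fin k) × ℝ :=
      fun x => (P x, g x) with hΦ
    have hΦc : ContDiffAt ℝ 1 Φ v0 := P.contDiff.contDiffAt.prodMk hgc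
    have hinj := step_ift_inj k _ i hi
    have hfin : Module.finrank ℝ (EuclideanSpace ℝ (Fin (k + 1))) =
        Module.finrank ℝ (EuclideanSpace ℝ (Fin k) × ℝ) := by
      rw [Module.finrank_prod, finrank_euclideanSpace_fin, finrank_euclideanSpace_fin,
        Module.finrank_self]
    have hsurj : Function.Surjective ((step_ift_P k i).prod (fderiv ℝ g v0)) :=
      (LinearMap.injective_iff_surjective_of_finrank_eq_finrank
        (f := (((step_ift_P k i).prod (fderiv ℝ g v0) : _ →L[ℝ] _) :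
          EuclideanSpace ℝ (Fin (k + 1)) →ₗ[ℝ] EuclideanSpace ℝ (Fin k) × ℝ)) hfin).1 hinj
    set e := ContinuousLinearEquiv.ofBijective ((step_ift_P k i).prod (fderiv ℝ g v0))
      (LinearMap.ker_eq_bot.mpr hinj) (LinearMap.range_eq_top.mpr hsurj) with he
    have hder : HasFDerivAt Φ (e : EuclideanSpace ℝ (Fin (k + 1)) →L[ℝ]
        EuclideanSpace ℝ (Fin k) × ℝ) v0 := by
      rw [he, ContinuousLinearEquiv.coe_ofBijective]
      exact P.hasFDerivAt.prodMk (hgc.differentiableAt (by norm_num)).hasFDerivAt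
    set F := hΦc.toOpenPartialHomeomorph Φ hder (by norm_num) with hF
    have hFc : (F : EuclideanSpace ℝ (Fin (k + 1)) → EuclideanSpace ℝ (Fin k) × ℝ) = Φ := rfl
    have hsrc : v0 ∈ F.source := hΦc.mem_toOpenPartialHomeomorph_source hder (by norm_num)
    have hsym : ContDiffAt ℝ 1 F.symm (Φ v0) := hΦc.to_localInverse hder (by norm_num)
    have htgt : Φ v0 ∈ F.target := F.map_source hsrc
    have hsymv : F.symm (Φ v0) = v0 := F.left_inv hsrc
    have ev1 : ∀ᶠ y in nhds (Φ v0), ContDiffAt ℝ 1 F.symm y := hsym.eventually (by simp)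
    have ev2 : ∀ᶠ y in nhds (Φ v0), y ∈ F.target := F.open_target.mem_nhds htgt
    have ev3 : ∀ᶠ y in nhds (Φ v0), F.symm y ∈ V := by
      apply hsym.continuousAt
      rw [hsymv]
      exact hV.mem_nhds hv0
    obtain ⟨O, hO1, hO2, hO3⟩ := eventually_nhds_iff.mp (ev1.and (ev2.and ev3))
    have hcont : Continuous fun w : EuclideanSpace ℝ (Fin k) => (w, g v0) := by fun_prop
    refine ⟨(fun w : EuclideanSpace ℝ (Fin k) => (w, g v0)) ⁻¹' O,
      fun w => F.symm (w, g v0), hO2.preimage hcont, ⟨P v0, hO3⟩, ?_, ?_, ?_, g v0, ?_⟩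
    · intro w hw
      have h1 : ContDiffAt ℝ 1 F.symm (w, g v0) := (hO1 _ hw).1
      have h2 : ContDiffAt ℝ 1 (fun w : EuclideanSpace ℝ (Fin k) => (w, g v0)) w :=
        contDiffAt_id.prodMk contDiffAt_const
      exact (ContDiffAt.comp w h1 h2).contDiffWithinAt
    · intro w hw w' hw' heq
      have h1 := F.right_inv (hO1 _ hw).2.1
      have h2 := F.right_inv (hO1 _ hw').2.1
      have heq' : F.symm (w, g v0) = F.symm (w', g v0) := heq
      rw [heq', h2] at h1
      exact (congrArg Prod.fst h1).symm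
    · intro w hw
      exact (hO1 _ hw).2.2
    · intro w hw
      have h1 := F.right_inv (hO1 _ hw).2.1
      rw [hFc] at h1
      exact congrArg Prod.snd h1

abbrev Pt := EuclideanSpace ℝ (Fin 2)

/-- the points of the section -/
noncomputable def xpt {n : ℕ} (a : Pt) (b : ℝ) (v : Fin n → Pt) (c : Fin n × Fin n) : Pt :=
  if c.1 = c.2 then v c.1 else
    ((inner ℝ a (v c.1) - b) - (inner ℝ a (v c.2) - b))⁻¹ •
      ((inner ℝ a (v c.1) - b) • v c.2 - (inner ℝ a (v c.2) - b) • v c.1)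

theorem empty_section {n : ℕ} (a : Pt) (b : ℝ) (v : Fin n → Pt)
    (h : ∀ c : Fin n × Fin n, ¬ ((c.1 = c.2 ∧ inner ℝ a (v c.1) - b = 0) ∨
      (0 < inner ℝ a (v c.1) - b ∧ inner ℝ a (v c.2) - b < 0))) :
    ({y | inner ℝ a y = b} ∩ convexHull ℝ (Set.range v)) = ∅ := by
  rw [Set.eq_empty_iff_forall_notMem]
  rintro y ⟨hy1, hy2⟩
  have hs := section_hull ((innerSL ℝ a).toLinearMap) b v y hy2 hy1
  have he : {y : Pt | (∃ i, ((innerSL ℝ a).toLinearMap) (v i) - b = 0 ∧ y = v i) ∨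
      ∃ i j, 0 < ((innerSL ℝ a).toLinearMap) (v i) - b ∧
        ((innerSL ℝ a).toLinearMap) (v j) - b < 0 ∧
        y = ((((innerSL ℝ a).toLinearMap) (v i) - b) -
          (((innerSL ℝ a).toLinearMap) (v j) - b))⁻¹ •
          ((((innerSL ℝ a).toLinearMap) (v i) - b) • v j -
            (((innerSL ℝ a).toLinearMap) (v j) - b) • v i)} = ∅ := by
    rw [Set.eq_empty_iff_forall_notMem]
    rintro z (⟨i, hi, _⟩ | ⟨i, j, hi, hj, _⟩)
    · exact h (i, i) (Or.inl ⟨rfl, hi⟩)
    · exact h (i, j) (Or.inr ⟨hi, hj⟩)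
  rw [he, convexHull_empty] at hs
  exact hs

theorem ds_inner (x y : Pt) : inner ℝ x y = x 0 * y 0 + x 1 * y 1 := by
  rw [PiLp.inner_apply, Fin.sum_univ_two]
  simp only [RCLike.inner_apply, conj_trivial]
  ring

theorem ds_norm (x : Pt) : ‖x‖ ^ 2 = x 0 ^ 2 + x 1 ^ 2 := by
  rw [EuclideanSpace.norm_sq_eq, Fin.sum_univ_two, Real.norm_eq_abs, Real.norm_eq_abs, sq_abs, sq_abs]

theorem ds_dist (a u w : Pt) (ha : a ≠ 0) (hu : ‖u‖ = 1) (hau : inner ℝ a u = 0)
    (haw : inner ℝ a w = 0) : ‖w‖ = |inner ℝ u w| := by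
  have h1 : u 0 ^ 2 + u 1 ^ 2 = 1 := by
    rw [← ds_norm, hu]
    norm_num
  have h2 : a 0 * u 0 + a 1 * u 1 = 0 := by rw [← ds_inner, hau]
  have h3 : a 0 * w 0 + a 1 * w 1 = 0 := by rw [← ds_inner, haw]
  have h4 : u 0 * w 1 - u 1 * w 0 = 0 := by
    by_contra hne
    have h5 : a 0 * (u 0 * w 1 - u 1 * w 0) = 0 := by linear_combination w 1 * h2 - u 1 * h3
    have h6 : a 1 * (u 0 * w 1 - u 1 * w 0) = 0 := by linear_combination u 0 * h3 - w 0 * h2
    have h7 := (mul_eq_zero.1 h5).resolve_right hne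
    have h8 := (mul_eq_zero.1 h6).resolve_right hne
    apply ha
    ext i
    fin_cases i
    · exact h7
    · exact h8
  have h5 : ‖w‖ ^ 2 = |inner ℝ u w| ^ 2 := by
    rw [sq_abs, ds_norm, ds_inner]
    have h6 : (u 0 ^ 2 + u 1 ^ 2) * (w 0 ^ 2 + w 1 ^ 2) =
      (u 0 * w 0 + u 1 * w 1) ^ 2 + (u 0 * w 1 - u 1 * w 0) ^ 2 := by ring
    rw [h1, h4] at h6
    linarith
  exact (sq_eq_sq₀ (norm_nonneg _) (abs_nonneg _)).1 h5

/-- length of the section of a polygon by a line -/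
theorem diam_section {n : ℕ} (a : Pt) (b : ℝ) (ha : a ≠ 0) (u : Pt) (hu : ‖u‖ = 1) (hau : inner ℝ a u = 0)
    (v : Fin n → Pt) (C : Set (Fin n × Fin n))
    (hC : ∀ c : Fin n × Fin n, c ∈ C ↔ (c.1 = c.2 ∧ inner ℝ a (v c.1) - b = 0) ∨
      (0 < inner ℝ a (v c.1) - b ∧ inner ℝ a (v c.2) - b < 0))
    (c d : Fin n × Fin n) (hc : c ∈ C) (hd : d ∈ C)
    (hmax : ∀ c' ∈ C, ∀ d' ∈ C, inner ℝ u (xpt a b v c' - xpt a b v d') ≤ inner ℝ u (xpt a b v c - xpt a b v d)) :
    Metric.diam ({y | inner ℝ a y = b} ∩ convexHull ℝ (Set.range v)) =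
      inner ℝ u (xpt a b v c - xpt a b v d) := by
  have hne : ∀ e : Fin n × Fin n, (0 < inner ℝ a (v e.1) - b ∧ inner ℝ a (v e.2) - b < 0) →
      e.1 ≠ e.2 := by
    rintro e ⟨h1, h2⟩ h3
    rw [h3] at h1
    exact lt_asymm h1 h2
  -- points of the section
  have hmem : ∀ e ∈ C, xpt a b v e ∈ {y | inner ℝ a y = b} ∩ convexHull ℝ (Set.range v) := by
    intro e he
    rcases (hC e).1 he with ⟨h1, h2⟩ | ⟨h1, h2⟩
    · have h3 : xpt a b v e = v e.1 := if_pos h1
      rw [h3]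
      exact ⟨by show inner ℝ a (v e.1) = b; linarith, subset_convexHull ℝ _ ⟨e.1, rfl⟩⟩
    · have h3 : xpt a b v e = ((inner ℝ a (v e.1) - b) - (inner ℝ a (v e.2) - b))⁻¹ •
      ((inner ℝ a (v e.1) - b) • v e.2 - (inner ℝ a (v e.2) - b) • v e.1) :=
        if_neg (hne e ⟨h1, h2⟩)
      have h4 : 0 < (inner ℝ a (v e.1) - b) - (inner ℝ a (v e.2) - b) := by linarith
      rw [h3]
      constructor
      · show inner ℝ a (((inner ℝ a (v e.1) - b) - (inner ℝ a (v e.2) - b))⁻¹ •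
          ((inner ℝ a (v e.1) - b) • v e.2 - (inner ℝ a (v e.2) - b) • v e.1)) = b
        rw [inner_smul_right, inner_sub_right, inner_smul_right, inner_smul_right]
        rw [inv_mul_eq_iff_eq_mul₀ h4.ne']
        ring
      · have h5 := convex_convexHull ℝ (Set.range v)
          (subset_convexHull ℝ _ ⟨e.2, rfl⟩ : v e.2 ∈ convexHull ℝ (Set.range v))
          (subset_convexHull ℝ _ ⟨e.1, rfl⟩ : v e.1 ∈ convexHull ℝ (Set.range v))
          (a := ((inner ℝ a (v e.1) - b) - (inner ℝ a (v e.2) - b))⁻¹ * (inner ℝ a (v e.1) - b))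
          (b := ((inner ℝ a (v e.1) - b) - (inner ℝ a (v e.2) - b))⁻¹ * -(inner ℝ a (v e.2) - b))
          (by positivity) (mul_nonneg (inv_nonneg.2 h4.le) (by linarith)) (by
            rw [← mul_add, inv_mul_eq_iff_eq_mul₀ h4.ne']
            ring)
        convert h5 using 1
        rw [smul_sub, mul_smul, mul_smul, neg_smul, smul_neg, sub_eq_add_neg]
  have hhull : ∀ y ∈ {y | inner ℝ a y = b} ∩ convexHull ℝ (Set.range v),
      y ∈ convexHull ℝ (xpt a b v '' C) := by
    rintro y ⟨hy1, hy2⟩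
    have h1 := section_hull (innerSL ℝ a : Pt →L[ℝ] ℝ).toLinearMap b v y hy2 hy1
    refine convexHull_mono ?_ h1
    rintro z (⟨i, hi, rfl⟩ | ⟨i, j, hi, hj, rfl⟩)
    · refine ⟨(i, i), (hC _).2 (Or.inl ⟨rfl, hi⟩), ?_⟩
      exact if_pos rfl
    · have hij : (0 < inner ℝ a (v i) - b ∧ inner ℝ a (v j) - b < 0) := ⟨hi, hj⟩
      refine ⟨(i, j), (hC _).2 (Or.inr hij), ?_⟩
      exact if_neg (hne (i, j) hij)
  obtain ⟨M, hM⟩ : ∃ M, M = inner ℝ u (xpt a b v c - xpt a b v d) := ⟨_, rfl⟩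
  rw [← hM] at hmax ⊢
  have hlin : IsLinearMap ℝ (fun w : Pt => inner ℝ u w) :=
    ⟨fun x y => inner_add_right u x y, fun r x => inner_smul_right u x r⟩
  have hbound : ∀ y ∈ convexHull ℝ (xpt a b v '' C), ∀ z ∈ convexHull ℝ (xpt a b v '' C),
      inner ℝ u (y - z) ≤ M := by
    intro y hy z hz
    have h1 : ∀ d' ∈ C, inner ℝ u y ≤ M + inner ℝ u (xpt a b v d') := by
      intro d' hd'
      have h2 : convexHull ℝ (xpt a b v '' C) ⊆
          {w | inner ℝ u w ≤ M + inner ℝ u (xpt a b v d')} := by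
        apply convexHull_min
        · rintro _ ⟨e, he, rfl⟩
          have h3 := hmax e he d' hd'
          rw [inner_sub_right] at h3
          show inner ℝ u (xpt a b v e) ≤ M + inner ℝ u (xpt a b v d')
          linarith
        · exact convex_halfSpace_le hlin _
      exact h2 hy
    have h2 : convexHull ℝ (xpt a b v '' C) ⊆ {w | inner ℝ u y - M ≤ inner ℝ u w} := by
      apply convexHull_min
      · rintro _ ⟨e, he, rfl⟩
        have h3 := h1 e he
        show inner ℝ u y - M ≤ inner ℝ u (xpt a b v e)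
        linarith
      · exact convex_halfSpace_ge hlin _
    have h3 : inner ℝ u y - M ≤ inner ℝ u z := h2 hz
    rw [inner_sub_right]
    linarith
  have hdist : ∀ y ∈ {y | inner ℝ a y = b} ∩ convexHull ℝ (Set.range v),
      ∀ z ∈ {y | inner ℝ a y = b} ∩ convexHull ℝ (Set.range v),
        dist y z = |inner ℝ u (y - z)| := by
    intro y hy z hz
    rw [dist_eq_norm]
    apply ds_dist a u _ ha hu hau
    have h1 : inner ℝ a y = b := hy.1
    have h2 : inner ℝ a z = b := hz.1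
    rw [inner_sub_right, h1, h2, sub_self]
  have hM0 : 0 ≤ M := by
    have h := hmax c hc c hc
    rw [sub_self, inner_zero_right] at h
    exact h
  have hle : ∀ y ∈ {y | inner ℝ a y = b} ∩ convexHull ℝ (Set.range v),
      ∀ z ∈ {y | inner ℝ a y = b} ∩ convexHull ℝ (Set.range v), dist y z ≤ M := by
    intro y hy z hz
    rw [hdist y hy z hz, abs_le]
    have h1 := hbound y (hhull y hy) z (hhull z hz)
    have h2 := hbound z (hhull z hz) y (hhull y hy)
    rw [inner_sub_right] at h1 h2 ⊢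
    constructor <;> linarith
  apply le_antisymm
  · exact Metric.diam_le_of_forall_dist_le hM0 hle
  · have h1 := Metric.dist_le_diam_of_mem (Metric.isBounded_iff.2 ⟨M, fun y hy z hz => hle y hy z hz⟩)
      (hmem c hc) (hmem d hd)
    rw [hdist _ (hmem c hc) _ (hmem d hd), ← hM, abs_of_nonneg hM0] at h1
    exact h1

theorem tame_unit (a : Pt) (ha : a ≠ 0) : ∃ u : Pt, ‖u‖ = 1 ∧ inner ℝ a u = 0 := by
  obtain ⟨r, hr⟩ : ∃ r : Pt, r = !₂[-a 1, a 0] := ⟨_, rfl⟩
  have hr0 : r ≠ 0 := by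
    intro h0
    apply ha
    rw [h0] at hr
    have h1 : a 1 = 0 := by
      have := congrArg (fun z : Pt => z 0) hr
      simpa using this.symm
    have h2 : a 0 = 0 := by
      have := congrArg (fun z : Pt => z 1) hr
      simpa using this.symm
    ext i
    fin_cases i
    · exact h2
    · exact h1
  have har : inner ℝ a r = 0 := by
    rw [hr]
    simp [PiLp.inner_apply, Fin.sum_univ_two]
    ring
  refine ⟨(‖r‖)⁻¹ • r, ?_, ?_⟩
  · rw [norm_smul, norm_inv, norm_norm, inv_mul_cancel₀ (norm_ne_zero_iff.2 hr0)]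
  · rw [inner_smul_right, har, mul_zero]

theorem tame {F : Type*} [NormedAddCommGroup F] [NormedSpace ℝ F] {n : ℕ} (a : Pt) (b : ℝ) (ha : a ≠ 0)
    (V : Set F) (hV : IsOpen V) (hne : V.Nonempty) (φ : F → Fin n → Pt) (hφ : ContDiffOn ℝ 1 φ V) :
    ∃ W ⊆ V, IsOpen W ∧ W.Nonempty ∧
      ContDiffOn ℝ 1 (fun x => Metric.diam ({y | inner ℝ a y = b} ∩ convexHull ℝ (Set.range (φ x)))) W := by
  have hφi : ∀ i, ContDiffOn ℝ 1 (fun x => φ x i) V := fun i => contDiffOn_pi.1 hφ i
  have hfC : ∀ i, ContDiffOn ℝ 1 (fun x => inner ℝ a (φ x i) - b) V := fun i =>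
    (contDiffOn_const.inner ℝ (hφi i)).sub contDiffOn_const
  obtain ⟨V1, hV1V, hV1, hV1ne, hsign⟩ := sign_const (fun i x => inner ℝ a (φ x i) - b) V hV hne
    (fun i => (hfC i).continuousOn)
  obtain ⟨C, hCdef⟩ : ∃ C : Set (Fin n × Fin n), C = {c | (c.1 = c.2 ∧
      ∀ x ∈ V1, inner ℝ a (φ x c.1) - b = 0) ∨ ((∀ x ∈ V1, 0 < inner ℝ a (φ x c.1) - b) ∧
      ∀ x ∈ V1, inner ℝ a (φ x c.2) - b < 0)} := ⟨_, rfl⟩
  have hC : ∀ x ∈ V1, ∀ c : Fin n × Fin n, c ∈ C ↔ (c.1 = c.2 ∧ inner ℝ a (φ x c.1) - b = 0) ∨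
      (0 < inner ℝ a (φ x c.1) - b ∧ inner ℝ a (φ x c.2) - b < 0) := by
    intro x hx c
    rw [hCdef]
    constructor
    · rintro (⟨h1, h2⟩ | ⟨h1, h2⟩)
      · exact Or.inl ⟨h1, h2 x hx⟩
      · exact Or.inr ⟨h1 x hx, h2 x hx⟩
    · rintro (⟨h1, h2⟩ | ⟨h1, h2⟩)
      · left
        refine ⟨h1, ?_⟩
        rcases hsign c.1 with h | h | h
        · exact absurd h2 (h x hx).ne'
        · exact h
        · exact absurd h2 (h x hx).ne
      · right
        constructor
        · rcases hsign c.1 with h | h | h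
          · exact h
          · exact absurd (h x hx) h1.ne'
          · exact absurd (h x hx) (not_lt.2 h1.le)
        · rcases hsign c.2 with h | h | h
          · exact absurd (h x hx) (not_lt.2 h2.le)
          · exact absurd (h x hx) h2.ne
          · exact h
  rcases C.eq_empty_or_nonempty with hCe | hCne
  · refine ⟨V1, hV1V, hV1, hV1ne, ?_⟩
    refine (contDiffOn_const (c := (0 : ℝ))).congr ?_
    intro x hx
    rw [empty_section a b (φ x), Metric.diam_empty]
    intro c hc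
    have := (hC x hx c).2 hc
    rw [hCe] at this
    exact this
  · obtain ⟨u, hu, hau⟩ := tame_unit a ha
    have hxpt : ∀ c ∈ C, ContDiffOn ℝ 1 (fun x => xpt a b (φ x) c) V1 := by
      intro c hc
      by_cases hcc : c.1 = c.2
      · have h1 : (fun x => xpt a b (φ x) c) = fun x => φ x c.1 := by
          funext x
          unfold xpt
          rw [if_pos hcc]
        rw [h1]
        exact (hφi c.1).mono hV1V
      · have h1 : (fun x => xpt a b (φ x) c) = fun x =>
            ((inner ℝ a (φ x c.1) - b) - (inner ℝ a (φ x c.2) - b))⁻¹ •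
              ((inner ℝ a (φ x c.1) - b) • φ x c.2 - (inner ℝ a (φ x c.2) - b) • φ x c.1) := by
          funext x
          unfold xpt
          rw [if_neg hcc]
        rw [h1]
        have hf1 := (hfC c.1).mono hV1V
        have hf2 := (hfC c.2).mono hV1V
        have hp1 := (hφi c.1).mono hV1V
        have hp2 := (hφi c.2).mono hV1V
        refine ((hf1.sub hf2).inv ?_).smul ((hf1.smul hp2).sub (hf2.smul hp1))
        intro x hx
        rcases (hC x hx c).1 hc with ⟨h2, _⟩ | ⟨h2, h3⟩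
        · exact absurd h2 hcc
        · have : 0 < (inner ℝ a (φ x c.1) - b) - (inner ℝ a (φ x c.2) - b) := by linarith
          exact this.ne'
    have hgC : ∀ i : (Fin n × Fin n) × (Fin n × Fin n), i.1 ∈ C → i.2 ∈ C →
        ContDiffOn ℝ 1 (fun x => inner ℝ u (xpt a b (φ x) i.1 - xpt a b (φ x) i.2)) V1 :=
      fun i h1 h2 => contDiffOn_const.inner ℝ ((hxpt i.1 h1).sub (hxpt i.2 h2))
    obtain ⟨s, hs⟩ : ∃ s : Finset ((Fin n × Fin n) × (Fin n × Fin n)),
        ∀ i, i ∈ s ↔ i.1 ∈ C ∧ i.2 ∈ C :=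
      ⟨(Set.toFinite (C ×ˢ C)).toFinset, fun i => by simp⟩
    obtain ⟨c0, hc0⟩ := hCne
    obtain ⟨W, hWV1, hW, hWne, k, hk, hmax⟩ := max_const s ⟨(c0, c0), (hs _).2 ⟨hc0, hc0⟩⟩
      (fun i x => inner ℝ u (xpt a b (φ x) i.1 - xpt a b (φ x) i.2)) V1 hV1 hV1ne
      (fun i hi => (hgC i ((hs i).1 hi).1 ((hs i).1 hi).2).continuousOn)
    obtain ⟨hk1, hk2⟩ := (hs k).1 hk
    refine ⟨W, hWV1.trans hV1V, hW, hWne, ?_⟩
    refine ((hgC k hk1 hk2).mono hWV1).congr ?_
    intro x hx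
    exact diam_section a b ha u hu hau (φ x) C (hC x (hWV1 hx)) k.1 k.2 hk1 hk2
      (fun c' hc' d' hd' => hmax (c', d') ((hs _).2 ⟨hc', hd'⟩) x hx)

/-- transcripts of an adaptive strategy, abstract form -/
noncomputable def tr {E Λ : Type*} (h : Λ → E → ℝ) (τ : List ℝ → Option Λ) (x : E) : ℕ → List ℝ
  | 0 => []
  | k + 1 => match τ (tr h τ x k) with
    | none => tr h τ x k
    | some l => tr h τ x k ++ [h l x]

theorem adaptive_two (k : ℕ) (V : Set (EuclideanSpace ℝ (Fin (k + 1)))) (hV : IsOpen V)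
    (hne : V.Nonempty) : ∃ x ∈ V, ∃ y ∈ V, x ≠ y := by
  obtain ⟨x, hx⟩ := hne
  obtain ⟨ε, hε, hb⟩ := Metric.isOpen_iff.1 hV x hx
  refine ⟨x, hx, x + (ε / 2) • EuclideanSpace.single 0 (1 : ℝ), hb ?_, ?_⟩
  · rw [Metric.mem_ball, dist_eq_norm, add_sub_cancel_left, norm_smul]
    simp
    rw [abs_of_pos hε]
    linarith
  · intro he
    have : (ε / 2) • EuclideanSpace.single (0 : Fin (k + 1)) (1 : ℝ) = 0 := by
      have := congrArg (fun z => z - x) he
      simpa using this.symm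
    have h2 := congrArg norm this
    rw [norm_smul] at h2
    simp at h2
    exact hε.ne' h2

theorem adaptive_step {E Λ : Type*} (h : Λ → E → ℝ) (τ : List ℝ → Option Λ) (x : E) (j : ℕ)
    (L : List ℝ) (hL : tr h τ x j = L) :
    (τ L = none → tr h τ x (j + 1) = L) ∧ (∀ l, τ L = some l → tr h τ x (j + 1) = L ++ [h l x]) := by
  constructor
  · intro hn
    rw [tr, hL, hn]
  · intro l hl
    rw [tr, hL, hl]

theorem adaptive {E Λ : Type*} [NormedAddCommGroup E] [NormedSpace ℝ E] (h : Λ → E → ℝ)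
    (htame : ∀ (l : Λ) (k : ℕ) (V : Set (EuclideanSpace ℝ (Fin k))) (φ : EuclideanSpace ℝ (Fin k) → E),
      IsOpen V → V.Nonempty → ContDiffOn ℝ 1 φ V →
      ∃ W ⊆ V, IsOpen W ∧ W.Nonempty ∧ ContDiffOn ℝ 1 (fun x => h l (φ x)) W)
    (τ : List ℝ → Option Λ) (U : Set E) (d : ℕ) (V : Set (EuclideanSpace ℝ (Fin d)))
    (φ : EuclideanSpace ℝ (Fin d) → E) (hV : IsOpen V) (hne : V.Nonempty) (hφ : ContDiffOn ℝ 1 φ V)
    (hinj : Set.InjOn φ V) (hU : Set.MapsTo φ V U) (m : ℕ) (hm : m < d) :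
    ∃ x ∈ U, ∃ y ∈ U, x ≠ y ∧ tr h τ x m = tr h τ y m := by
  have key : ∀ j, j ≤ m → ∃ k, d ≤ k + j ∧ ∃ (V : Set (EuclideanSpace ℝ (Fin k)))
      (φ : EuclideanSpace ℝ (Fin k) → E), IsOpen V ∧ V.Nonempty ∧ ContDiffOn ℝ 1 φ V ∧
      Set.InjOn φ V ∧ Set.MapsTo φ V U ∧ ∃ L : List ℝ, ∀ x ∈ V, tr h τ (φ x) j = L := by
    intro j
    induction j with
    | zero =>
      intro _
      exact ⟨d, le_rfl, V, φ, hV, hne, hφ, hinj, hU, [], fun x _ => rfl⟩
    | succ j ih =>
      intro hj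
      obtain ⟨k, hk, V, φ, hV, hne, hφ, hinj, hU, L, hL⟩ := ih (by omega)
      rcases hτ : τ L with _ | l
      · exact ⟨k, by omega, V, φ, hV, hne, hφ, hinj, hU, L,
          fun x hx => (adaptive_step h τ (φ x) j L (hL x hx)).1 hτ⟩
      · obtain ⟨W, hWV, hWo, hWne, hWd⟩ := htame l k V φ hV hne hφ
        obtain ⟨k', rfl⟩ : ∃ k', k = k' + 1 := ⟨k - 1, by omega⟩
        rcases step_ift k' W hWo hWne _ hWd with ⟨W', hW', hW'o, hW'ne, c, hc⟩ |
          ⟨W', ψ, hW'o, hW'ne, hψ, hψi, hψm, c, hc⟩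
        · refine ⟨k' + 1, by omega, W', φ, hW'o, hW'ne, hφ.mono (hW'.trans hWV),
            hinj.mono (hW'.trans hWV), hU.mono_left (hW'.trans hWV), L ++ [c], ?_⟩
          intro x hx
          rw [(adaptive_step h τ (φ x) j L (hL x (hWV (hW' hx)))).2 l hτ]
          have := hc x hx
          rw [this]
        · have hm : Set.MapsTo ψ W' V := fun w hw => hWV (hψm hw)
          refine ⟨k', by omega, W', φ ∘ ψ, hW'o, hW'ne, hφ.comp hψ hm, hinj.comp hψi hm,
            hU.comp hm, L ++ [c], ?_⟩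
          intro x hx
          rw [(adaptive_step h τ ((φ ∘ ψ) x) j L (hL (ψ x) (hm hx))).2 l hτ]
          have := hc x hx
          rw [Function.comp_apply, this]
  obtain ⟨k, hk, V, φ, hV, hne, hφ, hinj, hU, L, hL⟩ := key m le_rfl
  obtain ⟨k', rfl⟩ : ∃ k', k = k' + 1 := ⟨k - 1, by omega⟩
  obtain ⟨x, hx, y, hy, hxy⟩ := adaptive_two k' V hV hne
  exact ⟨φ x, hU hx, φ y, hU hy, fun he => hxy (hinj hx hy he), by rw [hL x hx, hL y hy]⟩

theorem conv_indep {n : ℕ} (v c : Fin n → Pt)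
    (h : ∀ i j, j ≠ i → inner ℝ (c i) (v j) < inner ℝ (c i) (v i)) : ConvexIndependent ℝ v := by
  intro s x hx
  by_contra hxs
  have hcvx : Convex ℝ {y : Pt | inner ℝ (c x) y < inner ℝ (c x) (v x)} :=
    convex_halfSpace_lt (f := fun r : Pt => inner ℝ (c x) r)
      ⟨fun a b => inner_add_right _ _ _, fun r a => inner_smul_right _ _ _⟩ _
  have h1 : convexHull ℝ (v '' s) ⊆ {y : Pt | inner ℝ (c x) y < inner ℝ (c x) (v x)} := by
    refine convexHull_min ?_ hcvx
    rintro _ ⟨j, hj, rfl⟩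
    exact h x j (fun e => hxs (e ▸ hj))
  have h2 : inner ℝ (c x) (v x) < inner ℝ (c x) (v x) := h1 hx
  exact lt_irrefl _ h2

theorem tri_interior_sub (a b c x : Pt)
    (h1 : 0 < (a 0 - x 0) * (b 1 - x 1) - (a 1 - x 1) * (b 0 - x 0))
    (h2 : 0 < (b 0 - x 0) * (c 1 - x 1) - (b 1 - x 1) * (c 0 - x 0))
    (h3 : 0 < (c 0 - x 0) * (a 1 - x 1) - (c 1 - x 1) * (a 0 - x 0)) :
    x ∈ convexHull ℝ ({a, b, c} : Set Pt) := by
  obtain ⟨D1, hD1⟩ : ∃ D1, D1 = (a 0 - x 0) * (b 1 - x 1) - (a 1 - x 1) * (b 0 - x 0) := ⟨_, rfl⟩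
  obtain ⟨D2, hD2⟩ : ∃ D2, D2 = (b 0 - x 0) * (c 1 - x 1) - (b 1 - x 1) * (c 0 - x 0) := ⟨_, rfl⟩
  obtain ⟨D3, hD3⟩ : ∃ D3, D3 = (c 0 - x 0) * (a 1 - x 1) - (c 1 - x 1) * (a 0 - x 0) := ⟨_, rfl⟩
  rw [← hD1] at h1
  rw [← hD2] at h2
  rw [← hD3] at h3
  have hS : 0 < D1 + D2 + D3 := by positivity
  have hmem := (convex_convexHull ℝ ({a, b, c} : Set Pt)).sum_mem
    (t := (Finset.univ : Finset (Fin 3)))
    (w := ![D2 / (D1 + D2 + D3), D3 / (D1 + D2 + D3), D1 / (D1 + D2 + D3)])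
    (z := ![a, b, c]) (by
      intro i _
      fin_cases i
      · exact (div_pos h2 hS).le
      · exact (div_pos h3 hS).le
      · exact (div_pos h1 hS).le) (by
      rw [Fin.sum_univ_three]
      change D2 / (D1 + D2 + D3) + D3 / (D1 + D2 + D3) + D1 / (D1 + D2 + D3) = 1
      field_simp
      ring) (by
      intro i _
      apply subset_convexHull
      fin_cases i <;> simp)
  convert hmem using 1
  rw [Fin.sum_univ_three]
  have key : ∀ i : Fin 2, x i = D2 / (D1 + D2 + D3) * a i + D3 / (D1 + D2 + D3) * b i +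
      D1 / (D1 + D2 + D3) * c i := by
    intro i
    have e : (D1 + D2 + D3) * x i = D2 * a i + D3 * b i + D1 * c i := by
      rw [hD1, hD2, hD3]
      fin_cases i
      · simp only [Fin.zero_eta, Fin.isValue]
        ring
      · simp only [Fin.mk_one, Fin.isValue]
        ring
    field_simp
    linarith
  ext i
  simpa using key i

/-- `p` is in the interior of a triangle with positive orientation determinants -/
theorem tri_interior (a b c p : Pt)
    (h1 : 0 < (a 0 - p 0) * (b 1 - p 1) - (a 1 - p 1) * (b 0 - p 0))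
    (h2 : 0 < (b 0 - p 0) * (c 1 - p 1) - (b 1 - p 1) * (c 0 - p 0))
    (h3 : 0 < (c 0 - p 0) * (a 1 - p 1) - (c 1 - p 1) * (a 0 - p 0)) :
    p ∈ interior (convexHull ℝ ({a, b, c} : Set Pt)) := by
  rw [mem_interior]
  refine ⟨{x : Pt | 0 < (a 0 - x 0) * (b 1 - x 1) - (a 1 - x 1) * (b 0 - x 0)} ∩
    ({x : Pt | 0 < (b 0 - x 0) * (c 1 - x 1) - (b 1 - x 1) * (c 0 - x 0)} ∩
    {x : Pt | 0 < (c 0 - x 0) * (a 1 - x 1) - (c 1 - x 1) * (a 0 - x 0)}), ?_, ?_, h1, h2, h3⟩
  · rintro x ⟨k1, k2, k3⟩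
    exact tri_interior_sub a b c x k1 k2 k3
  · refine IsOpen.inter ?_ (IsOpen.inter ?_ ?_)
    · exact isOpen_lt (by fun_prop) (by fun_prop)
    · exact isOpen_lt (by fun_prop) (by fun_prop)
    · exact isOpen_lt (by fun_prop) (by fun_prop)

theorem hi_convex (c p : Pt) : Convex ℝ ({x : Pt | inner ℝ c x < inner ℝ c p} ∪ {p}) := by
  intro x hx y hy a b ha hb hab
  have e : inner ℝ c (a • x + b • y) = a * inner ℝ c x + b * inner ℝ c y := by
    rw [inner_add_right, inner_smul_right, inner_smul_right]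
  have eM : a * inner ℝ c p + b * inner ℝ c p = inner ℝ c p := by
    rw [← add_mul, hab, one_mul]
  rcases hx with hx | hx
  · have hx' : inner ℝ c x < inner ℝ c p := hx
    rcases hy with hy | hy
    · have hy' : inner ℝ c y < inner ℝ c p := hy
      left
      change inner ℝ c (a • x + b • y) < inner ℝ c p
      rw [e]
      rcases ha.eq_or_lt with h0 | h0
      · have hb1 : b = 1 := by linarith
        rw [← h0, hb1]
        linarith
      · have h1 := mul_lt_mul_of_pos_left hx' h0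
        have h2 := mul_le_mul_of_nonneg_left hy'.le hb
        linarith
    · have hy' : y = p := hy
      subst hy'
      rcases ha.eq_or_lt with h0 | h0
      · right
        have hb1 : b = 1 := by linarith
        change a • x + b • y = y
        rw [← h0, hb1, zero_smul, one_smul, zero_add]
      · left
        change inner ℝ c (a • x + b • y) < inner ℝ c y
        rw [e]
        have h1 := mul_lt_mul_of_pos_left hx' h0
        linarith
  · have hx' : x = p := hx
    subst hx'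
    rcases hy with hy | hy
    · have hy' : inner ℝ c y < inner ℝ c x := hy
      rcases hb.eq_or_lt with h0 | h0
      · right
        have hb1 : a = 1 := by linarith
        change a • x + b • y = x
        rw [← h0, hb1, zero_smul, one_smul, add_zero]
      · left
        change inner ℝ c (a • x + b • y) < inner ℝ c x
        rw [e]
        have h1 := mul_lt_mul_of_pos_left hy' h0
        linarith
    · have hy' : y = x := hy
      subst hy'
      right
      change a • y + b • y = y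
      rw [← add_smul, hab, one_smul]

theorem hi_half {n : ℕ} (v w c : Fin n → Pt)
    (hw : ∀ i j, j ≠ i → inner ℝ (c i) (w j) < inner ℝ (c i) (w i))
    (h : convexHull ℝ (Set.range v) = convexHull ℝ (Set.range w)) (i : Fin n) :
    inner ℝ (c i) (v i) < inner ℝ (c i) (w i) ∨ v i = w i := by
  have h1 : v i ∈ convexHull ℝ (Set.range w) := by
    rw [← h]
    exact subset_convexHull ℝ _ (Set.mem_range_self i)
  have h2 : convexHull ℝ (Set.range w) ⊆ ({x : Pt | inner ℝ (c i) x < inner ℝ (c i) (w i)} ∪ {w i}) := by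
    apply convexHull_min _ (hi_convex (c i) (w i))
    rintro _ ⟨j, rfl⟩
    by_cases hj : j = i
    · right
      rw [hj]
      rfl
    · left
      exact hw i j hj
  exact h2 h1

theorem hull_inj {n : ℕ} (v w c : Fin n → Pt)
    (hv : ∀ i j, j ≠ i → inner ℝ (c i) (v j) < inner ℝ (c i) (v i))
    (hw : ∀ i j, j ≠ i → inner ℝ (c i) (w j) < inner ℝ (c i) (w i))
    (h : convexHull ℝ (Set.range v) = convexHull ℝ (Set.range w)) : v = w := by
  funext i
  rcases hi_half v w c hw h i with h1 | h1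
  · rcases hi_half w v c hv h.symm i with h2 | h2
    · exact absurd h1 (lt_asymm h2)
    · exact h2.symm
  · exact h1

theorem aux_inner (x y : Pt) : inner ℝ x y = x 0 * y 0 + x 1 * y 1 := by
  rw [PiLp.inner_apply, Fin.sum_univ_two]
  simp only [RCLike.inner_apply, conj_trivial]
  ring

theorem base_config (n : ℕ) (hn : 3 ≤ n) (p : Pt) :
    ∃ U : Set (Fin n → Pt), IsOpen U ∧ U.Nonempty ∧
      (∀ v ∈ U, ConvexIndependent ℝ v ∧ p ∈ interior (convexHull ℝ (Set.range v))) ∧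
      (∀ v ∈ U, ∀ w ∈ U, convexHull ℝ (Set.range v) = convexHull ℝ (Set.range w) → v = w) := by
  obtain ⟨t, ht⟩ : ∃ t : Fin n → ℝ, ∀ i, t i = (i.val : ℝ) - 1 := ⟨_, fun _ => rfl⟩
  obtain ⟨c, hc⟩ : ∃ c : Fin n → Pt, ∀ i, (c i) 0 = 2 * t i ∧ (c i) 1 = -1 :=
    ⟨fun i => !₂[2 * t i, -1], fun i => ⟨by simp, by simp⟩⟩
  obtain ⟨v0, hv0⟩ : ∃ v0 : Fin n → Pt, ∀ i, (v0 i) 0 = p 0 + t i ∧
      (v0 i) 1 = p 1 + (t i) ^ 2 - 2 / 3 :=
    ⟨fun i => !₂[p 0 + t i, p 1 + (t i) ^ 2 - 2 / 3], fun i => ⟨by simp, by simp⟩⟩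
  have h0n : 0 < n := by omega
  have h1n : 1 < n := by omega
  have h2n : 2 < n := by omega
  obtain ⟨i0, hi0⟩ : ∃ i : Fin n, i.val = 0 := ⟨⟨0, h0n⟩, rfl⟩
  obtain ⟨i1, hi1⟩ : ∃ i : Fin n, i.val = 1 := ⟨⟨1, h1n⟩, rfl⟩
  obtain ⟨i2, hi2⟩ : ∃ i : Fin n, i.val = 2 := ⟨⟨2, h2n⟩, rfl⟩
  have e0 : ∀ j : Fin n, Continuous fun v : Fin n → Pt => (v j) 0 := fun j =>
    (EuclideanSpace.proj (0 : Fin 2) : Pt →L[ℝ] ℝ).continuous.comp (continuous_apply j)
  have e1 : ∀ j : Fin n, Continuous fun v : Fin n → Pt => (v j) 1 := fun j =>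
    (EuclideanSpace.proj (1 : Fin 2) : Pt →L[ℝ] ℝ).continuous.comp (continuous_apply j)
  have hdet : ∀ i j : Fin n, IsOpen {v : Fin n → Pt |
      0 < ((v i) 0 - p 0) * ((v j) 1 - p 1) - ((v i) 1 - p 1) * ((v j) 0 - p 0)} := by
    intro i j
    apply isOpen_lt continuous_const
    exact (((e0 i).sub continuous_const).mul ((e1 j).sub continuous_const)).sub
      (((e1 i).sub continuous_const).mul ((e0 j).sub continuous_const))
  refine ⟨{v | ∀ i j, j ≠ i → inner ℝ (c i) (v j) < inner ℝ (c i) (v i)} ∩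
    ({v | 0 < ((v i0) 0 - p 0) * ((v i1) 1 - p 1) - ((v i0) 1 - p 1) * ((v i1) 0 - p 0)} ∩
    ({v | 0 < ((v i1) 0 - p 0) * ((v i2) 1 - p 1) - ((v i1) 1 - p 1) * ((v i2) 0 - p 0)} ∩
    {v | 0 < ((v i2) 0 - p 0) * ((v i0) 1 - p 1) - ((v i2) 1 - p 1) * ((v i0) 0 - p 0)})),
    ?_, ?_, ?_, ?_⟩
  · refine IsOpen.inter ?_ ((hdet i0 i1).inter ((hdet i1 i2).inter (hdet i2 i0)))
    simp only [Set.setOf_forall]
    refine isOpen_iInter_of_finite fun i => isOpen_iInter_of_finite fun j =>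
      isOpen_iInter_of_finite fun _ => ?_
    apply isOpen_lt
    · exact continuous_const.inner (continuous_apply j)
    · exact continuous_const.inner (continuous_apply i)
  · refine ⟨v0, ?_, ?_, ?_, ?_⟩
    · intro i j hij
      rw [aux_inner, aux_inner, (hc i).1, (hc i).2, (hv0 i).1, (hv0 i).2, (hv0 j).1, (hv0 j).2]
      have hne : t j ≠ t i := by
        rw [ht, ht]
        intro h
        apply hij
        apply Fin.ext
        have : (j.val : ℝ) = (i.val : ℝ) := by linarith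
        exact_mod_cast this
      have hpos : 0 < (t j - t i) ^ 2 := by
        have : t j - t i ≠ 0 := sub_ne_zero.2 hne
        positivity
      nlinarith
    · show 0 < ((v0 i0) 0 - p 0) * ((v0 i1) 1 - p 1) - ((v0 i0) 1 - p 1) * ((v0 i1) 0 - p 0)
      rw [(hv0 i0).1, (hv0 i0).2, (hv0 i1).1, (hv0 i1).2, ht, ht, hi0, hi1]
      norm_num
    · show 0 < ((v0 i1) 0 - p 0) * ((v0 i2) 1 - p 1) - ((v0 i1) 1 - p 1) * ((v0 i2) 0 - p 0)
      rw [(hv0 i1).1, (hv0 i1).2, (hv0 i2).1, (hv0 i2).2, ht, ht, hi1, hi2]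
      norm_num
    · show 0 < ((v0 i2) 0 - p 0) * ((v0 i0) 1 - p 1) - ((v0 i2) 1 - p 1) * ((v0 i0) 0 - p 0)
      rw [(hv0 i2).1, (hv0 i2).2, (hv0 i0).1, (hv0 i0).2, ht, ht, hi2, hi0]
      norm_num
      linarith
  · rintro v ⟨h1, h2, h3, h4⟩
    refine ⟨conv_indep v c h1, ?_⟩
    have h5 := tri_interior (v i0) (v i1) (v i2) p h2 h3 h4
    refine interior_mono (convexHull_mono ?_) h5
    intro x hx
    rcases hx with rfl | rfl | rfl
    · exact ⟨_, rfl⟩
    · exact ⟨_, rfl⟩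
    · exact ⟨_, rfl⟩
  · rintro v ⟨h1, -⟩ w ⟨h2, -⟩ h
    exact hull_inj v w c h1 h2 h

theorem equiv_2n (n : ℕ) : Nonempty (EuclideanSpace ℝ (Fin (2 * n)) ≃L[ℝ] (Fin n → Pt)) := by
  refine ⟨ContinuousLinearEquiv.ofFinrankEq ?_⟩
  rw [finrank_euclideanSpace_fin, Module.finrank_pi_fintype]
  simp [Pt, mul_comm]

end Pool.Agent.Helper877.Probe
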